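import Pool.Agent.W544.K3.Defs4
import Pool.Agent.W544.K3.Main2
import Pool.Agent.W565.K3.Irr
import Pool.Agent.W976.K3.IRR2
import Pool.Agent.W537.DB.Rat

set_option autoImplicit false

/-!
# K3-IRR4: irreducibility from semisimplicity
-/

open Module Finset

namespace Pool.Agent.W308.K3.IRR4

open Pool.Agent.W544.K3
open Pool.Agent.W565.K3 (opR opR_apply MC mem_MC app_re app_im app_mulVec app_add)
open Pool.Agent.W976.K3 (lie_memM skew_hTM hT_UM hodge_realM)

noncomputable section

variable {n N : ℕ}

theorem bil_add_right (B : Matrix (Fin n) (Fin n) ℚ) (u v w : Fin n → ℂ) :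
    bil B u (v + w) = bil B u v + bil B u w := by
  simp only [bil, ← Finset.sum_add_distrib, Pi.add_apply]
  exact Finset.sum_congr rfl fun i _ => Finset.sum_congr rfl fun j _ => by ring

/-- the real and imaginary parts of the pairing with a real vector -/
theorem bil_real (B : Matrix (Fin n) (Fin n) ℚ) (v : Fin n → ℂ) (u : Fin n → ℝ) :
    (bil B v (fun i => (u i : ℂ))).re = bilR B (fun i => (v i).re) u ∧
    (bil B v (fun i => (u i : ℂ))).im = bilR B (fun i => (v i).im) u := by
  constructor
  · rw [bilR_apply]
    simp only [bil, Complex.re_sum]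
    refine Finset.sum_congr rfl fun i _ => Finset.sum_congr rfl fun j _ => ?_
    simp
  · rw [bilR_apply]
    simp only [bil, Complex.im_sum]
    refine Finset.sum_congr rfl fun i _ => Finset.sum_congr rfl fun j _ => ?_
    simp

/-- A Hodge endomorphism acts on the complexification of `U i` by a real scalar. -/
theorem app_scalar (X : Multi n N) (P : Matrix (Fin n) (Fin n) ℚ) (hP : X.HodgeEnd P) (i : Fin N)
    (c : ℝ) (hc : app P (X.ω i) = (c : ℂ) • X.ω i) (v : Fin n → ℂ)
    (h1 : (fun a => (v a).re) ∈ X.U i) (h2 : (fun a => (v a).im) ∈ X.U i) :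
    app P v = (c : ℂ) • v := by
  funext a
  have e1 := h1.2 P hP c hc a
  have e2 := h2.2 P hP c hc a
  apply Complex.ext
  · rw [show (app P v a).re = (fun i => (app P v i).re) a from rfl, app_re, opR_apply, e1]
    simp
  · rw [show (app P v a).im = (fun i => (app P v i).im) a from rfl, app_im, opR_apply, e2]
    simp

/-- Complex matrices which commute with a set of rational matrices are combinations of rational
matrices with the same property. -/
theorem comm_span (S : Set (Matrix (Fin n) (Fin n) ℚ)) (F : Matrix (Fin n) (Fin n) ℂ)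
    (hF : ∀ P ∈ S, mC P * F = F * mC P) :
    F ∈ Submodule.span ℂ (mC '' {f | ∀ P ∈ S, P * f = f * P}) := by
  classical
  -- the linear equations
  let eq : Matrix (Fin n) (Fin n) ℚ → Fin n → Fin n → (Fin n × Fin n → ℂ) := fun P a b cd =>
    (if cd.2 = b then (P a cd.1 : ℂ) else 0) - (if cd.1 = a then (P cd.2 b : ℂ) else 0)
  have heq : ∀ (P : Matrix (Fin n) (Fin n) ℚ) (a b : Fin n) (G : Matrix (Fin n) (Fin n) ℂ),
      ∑ cd : Fin n × Fin n, eq P a b cd * G cd.1 cd.2 = (mC P * G) a b - (G * mC P) a b := by
    intro P a b G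
    rw [Matrix.mul_apply, Matrix.mul_apply]
    simp only [eq, sub_mul, Finset.sum_sub_distrib, Fintype.sum_prod_type]
    congr 1
    · refine Finset.sum_congr rfl fun c _ => ?_
      rw [Finset.sum_eq_single b]
      · simp [mC]
      · intro d _ hd
        simp [hd]
      · intro h
        exact absurd (Finset.mem_univ _) h
    · rw [Finset.sum_eq_single a]
      · refine Finset.sum_congr rfl fun d _ => ?_
        simp [mC, mul_comm]
      · intro c _ hc
        simp [hc]
      · intro h
        exact absurd (Finset.mem_univ _) h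
  have h1 := Pool.Agent.W537.DB.rational_span (⊥ : IntermediateField ℚ ℂ)
    {b | ∃ P ∈ S, ∃ a c, b = eq P a c}
    (by
      rintro _ ⟨P, -, a, b, rfl⟩ cd
      refine IntermediateField.mem_bot.mpr ⟨(if cd.2 = b then P a cd.1 else 0) -
        (if cd.1 = a then P cd.2 b else 0), ?_⟩
      simp only [eq, eq_ratCast, Rat.cast_sub]
      split_ifs <;> simp)
    (w := fun cd => F cd.1 cd.2)
    (by
      rintro _ ⟨P, hP, a, b, rfl⟩
      rw [heq, hF P hP, sub_self])
  -- back to matrices
  have h2 : ∀ w ∈ Submodule.span ℂ {u : Fin n × Fin n → ℂ | (∀ i, u i ∈ (⊥ : IntermediateField ℚ ℂ)) ∧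
      ∀ b ∈ {b | ∃ P ∈ S, ∃ a c, b = eq P a c}, ∑ i, b i * u i = 0},
      (Matrix.of fun a b => w (a, b)) ∈
        Submodule.span ℂ (mC '' {f | ∀ P ∈ S, P * f = f * P}) := by
    intro w hw
    induction hw using Submodule.span_induction with
    | mem u hu =>
      obtain ⟨hu1, hu2⟩ := hu
      choose q hq using fun i => IntermediateField.mem_bot.mp (hu1 i)
      apply Submodule.subset_span
      refine ⟨Matrix.of fun a b => q (a, b), ?_, ?_⟩
      · intro P hP
        have hmC : mC (Matrix.of fun a b => q (a, b)) = Matrix.of fun a b => u (a, b) := by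
          ext a b
          simp only [mC, Matrix.map_apply, Matrix.of_apply]
          rw [← hq]
          rfl
        have h3 : mC P * mC (Matrix.of fun a b => q (a, b)) =
            mC (Matrix.of fun a b => q (a, b)) * mC P := by
          rw [hmC]
          ext a b
          have h4 := hu2 _ ⟨P, hP, a, b, rfl⟩
          have h5 := heq P a b (Matrix.of fun a b => u (a, b))
          simp only [Matrix.of_apply] at h5
          rw [h4] at h5
          exact (sub_eq_zero.mp h5.symm)
        have h6 : ∀ A B : Matrix (Fin n) (Fin n) ℚ, mC A * mC B = mC (A * B) := by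
          intro A B
          exact (Matrix.map_mul (f := (Rat.castHom ℂ))).symm
        rw [h6, h6] at h3
        ext a b
        have h7 := congrFun (congrFun h3 a) b
        simp only [mC, Matrix.map_apply] at h7
        exact Rat.cast_injective h7
      · ext a b
        simp only [mC, Matrix.map_apply, Matrix.of_apply]
        rw [← hq]
        rfl
    | zero =>
      have : (Matrix.of fun a b => (0 : Fin n × Fin n → ℂ) (a, b)) = 0 := by
        ext a b
        rfl
      rw [this]
      exact Submodule.zero_mem _
    | add u v _ _ hu hv =>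
      have : (Matrix.of fun a b => (u + v) (a, b)) =
          (Matrix.of fun a b => u (a, b)) + Matrix.of fun a b => v (a, b) := by
        ext a b
        rfl
      rw [this]
      exact Submodule.add_mem _ hu hv
    | smul c u _ hu =>
      have : (Matrix.of fun a b => (c • u) (a, b)) = c • Matrix.of fun a b => u (a, b) := by
        ext a b
        rfl
      rw [this]
      exact Submodule.smul_mem _ c hu
  exact h2 _ h1

theorem irr4 : S_der4 → S_end4 → S_ss4 → S_irr4 := by
  intro _ hend hss n N X hEH hHD hSS hR i₀
  obtain ⟨-, hD, -⟩ := hend n N X hEH hHD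
  refine ⟨?_, skew_hTM X, hT_UM X hD i₀⟩
  intro M hMU hJ hS
  by_cases hM : M = ⊥
  · exact Or.inl hM
  right
  have hst : ∀ x ∈ X.lie, ∀ v ∈ MC M hJ, (mC x).mulVec v ∈ MC M hJ := by
    intro x hx v hv
    have h1 : app x v ∈ MC M hJ := by
      rw [mem_MC] at hv ⊢
      rw [app_re, app_im]
      exact hS _ (lie_memM X x hx) _ hv
    rw [app_mulVec] at h1
    exact h1
  have hmul : ∀ A B : Matrix (Fin n) (Fin n) ℚ, mC (A * B) = mC A * mC B := fun A B =>
    Matrix.map_mul (f := (Rat.castHom ℂ))
  -- stability under the algebra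
  have hst2 : ∀ f ∈ Algebra.adjoin ℚ X.lie, ∀ v ∈ MC M hJ, (mC f).mulVec v ∈ MC M hJ := by
    intro f hf
    induction hf using Algebra.adjoin_induction with
    | mem x hx => exact hst x hx
    | algebraMap q =>
      intro v hv
      have : (mC (algebraMap ℚ (Matrix (Fin n) (Fin n) ℚ) q)).mulVec v = (q : ℂ) • v := by
        have h1 : mC (algebraMap ℚ (Matrix (Fin n) (Fin n) ℚ) q) =
            (q : ℂ) • (1 : Matrix (Fin n) (Fin n) ℂ) := by
          ext a b
          simp only [mC, Matrix.map_apply, Matrix.algebraMap_matrix_apply, Matrix.smul_apply,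
            Matrix.one_apply, smul_eq_mul]
          split_ifs <;> simp
        rw [h1, Matrix.smul_mulVec, Matrix.one_mulVec]
      rw [this]
      exact Submodule.smul_mem _ _ hv
    | add a b _ _ ha hb =>
      intro v hv
      have : mC (a + b) = mC a + mC b := by
        ext i j
        simp [mC]
      rw [this, Matrix.add_mulVec]
      exact Submodule.add_mem _ (ha v hv) (hb v hv)
    | mul a b _ _ ha hb =>
      intro v hv
      rw [hmul, ← Matrix.mulVec_mulVec]
      exact ha _ (hb v hv)
  -- stability under the commutant of the Hodge endomorphisms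
  have hst3 : ∀ F : Matrix (Fin n) (Fin n) ℂ, (∀ P ∈ {P | X.HodgeEnd P}, mC P * F = F * mC P) →
      ∀ v ∈ MC M hJ, F.mulVec v ∈ MC M hJ := by
    intro F hF v hv
    have h1 := comm_span {P | X.HodgeEnd P} F hF
    clear hF
    induction h1 using Submodule.span_induction with
    | mem F hF =>
      obtain ⟨f, hf, rfl⟩ := hF
      exact hst2 f (hss n N X hEH hHD hSS f (fun P hP => hf P hP)) v hv
    | zero =>
      rw [Matrix.zero_mulVec]
      exact Submodule.zero_mem _
    | add a b _ _ ha hb =>
      rw [Matrix.add_mulVec]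
      exact Submodule.add_mem _ ha hb
    | smul c a _ ha =>
      rw [Matrix.smul_mulVec]
      exact Submodule.smul_mem _ c ha
  -- a nonzero vector
  obtain ⟨p, hp, hp0⟩ := Submodule.exists_mem_ne_zero_of_ne_bot hM
  let m : Fin n → ℂ := fun i => ⟨p.1 i, p.2 i⟩
  have hm : m ∈ MC M hJ := by
    rw [mem_MC]
    exact hp
  have hpU := hMU p hp
  obtain ⟨u0, hu0, hne⟩ : ∃ u0 ∈ X.U i₀, bil X.B m (fun i => (u0 i : ℂ)) ≠ 0 := by
    by_contra hcon
    push Not at hcon
    apply hp0
    have e1 : p.1 = 0 := by
      apply U_nondeg X i₀ p.1 hpU.1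
      intro v hv
      have := congrArg Complex.re (hcon v hv)
      rw [(bil_real X.B m v).1] at this
      exact this
    have e2 : p.2 = 0 := by
      apply U_nondeg X i₀ p.2 hpU.2
      intro v hv
      have := congrArg Complex.im (hcon v hv)
      rw [(bil_real X.B m v).2] at this
      exact this
    exact Prod.ext e1 e2
  intro u hu v hv
  let w : Fin n → ℂ := fun i => ⟨u i, v i⟩
  let uc : Fin n → ℂ := fun i => (u0 i : ℂ)
  let F : Matrix (Fin n) (Fin n) ℂ := Matrix.of fun a b => w a * ∑ c, (X.B b c : ℂ) * uc c
  have hFv : ∀ z, F.mulVec z = bil X.B z uc • w := by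
    intro z
    funext a
    simp only [F, Matrix.mulVec, dotProduct, Matrix.of_apply, Pi.smul_apply, smul_eq_mul, bil,
      Finset.sum_mul, Finset.mul_sum]
    exact Finset.sum_congr rfl fun b _ => Finset.sum_congr rfl fun c _ => by ring
  have hFc : ∀ P ∈ {P | X.HodgeEnd P}, mC P * F = F * mC P := by
    intro P hP
    obtain ⟨c, hc⟩ := hodge_realM X hR P hP i₀
    apply Matrix.toLin'.injective
    rw [Matrix.toLin'_mul, Matrix.toLin'_mul]
    apply LinearMap.ext
    intro z
    simp only [LinearMap.comp_apply, Matrix.toLin'_apply]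
    rw [hFv, hFv, Matrix.mulVec_smul]
    have e1 : (mC P).mulVec w = (c : ℂ) • w := by
      have := app_scalar X P hP i₀ c hc w hu hv
      rw [app_mulVec] at this
      exact this
    have e2 : bil X.B ((mC P).mulVec z) uc = (c : ℂ) * bil X.B z uc := by
      have e3 : bil X.B (app P z) uc = bil X.B z (app P uc) := (hR P hP).1 z uc
      have e4 : app P uc = (c : ℂ) • uc := by
        apply app_scalar X P hP i₀ c hc uc
        · exact hu0
        · have : (fun a => (uc a).im) = 0 := by
            funext a
            simp [uc]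
          rw [this]
          exact (X.U i₀).zero_mem
      rw [e4, Pool.Agent.W565.K3.bil_smul_right, app_mulVec] at e3
      exact e3
    rw [e1, e2, smul_smul, mul_comm]
  have h1 := hst3 F hFc m hm
  rw [hFv] at h1
  have h2 : w ∈ MC M hJ := by
    have := Submodule.smul_mem (MC M hJ) (bil X.B m uc)⁻¹ h1
    rw [smul_smul, inv_mul_cancel₀ hne, one_smul] at this
    exact this
  exact h2

end

end Pool.Agent.W308.K3.IRR4
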