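import Pool.Agent.W544.K3.Defs4
import Pool.Agent.W565.K3.Irr
import Pool.Agent.W537.DB.Der
import Pool.Agent.W537.DB.Rat

set_option autoImplicit false

/-!
# K3-SS4: rational matrices commuting with the Hodge endomorphisms
-/

open Module Finset

namespace Pool.Agent.W308.K3.SS4

open Pool.Agent.W544.K3
open Pool.Agent.W565.K3 (app_mulVec)

noncomputable section

variable {n N : ℕ}

/-- a rational vector as a complex vector -/
def cast (v : Fin n → ℚ) : Fin n → ℂ := fun i => (v i : ℂ)

theorem cast_add (v w : Fin n → ℚ) : cast (v + w) = cast v + cast w := by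
  funext i
  simp [cast]

theorem cast_sub (v w : Fin n → ℚ) : cast (v - w) = cast v - cast w := by
  funext i
  simp [cast]

theorem cast_smul (q : ℚ) (v : Fin n → ℚ) : cast (q • v) = (q : ℂ) • cast v := by
  funext i
  simp [cast]

theorem cast_inj {v w : Fin n → ℚ} (h : cast v = cast w) : v = w := by
  funext i
  exact Rat.cast_injective (congrFun h i)

theorem app_cast (P : Matrix (Fin n) (Fin n) ℚ) (v : Fin n → ℚ) :
    app P (cast v) = cast (P.mulVec v) := by
  funext i
  simp [app, cast, Matrix.mulVec, dotProduct]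

theorem app_mC (P : Matrix (Fin n) (Fin n) ℚ) (v : Fin n → ℂ) : app P v = (mC P).mulVec v :=
  app_mulVec P v

/-- the complex span of a rational subspace -/
def WC (W : Submodule ℚ (Fin n → ℚ)) : Submodule ℂ (Fin n → ℂ) := Submodule.span ℂ (cast '' W)

/-- rational vectors of the span -/
theorem mem_of_cast (W : Submodule ℚ (Fin n → ℚ)) {v : Fin n → ℚ} (h : cast v ∈ WC W) :
    v ∈ W := by
  have h1 := Pool.Agent.W537.DB.descend_span (⊥ : IntermediateField ℚ ℂ) (cast '' (W : Set (Fin n → ℚ)))
    (by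
      rintro _ ⟨w, -, rfl⟩ i
      exact IntermediateField.mem_bot.mpr ⟨w i, rfl⟩)
    (w := cast v) (fun i => IntermediateField.mem_bot.mpr ⟨v i, rfl⟩) h
  have h2 : ∀ u ∈ Submodule.span (⊥ : IntermediateField ℚ ℂ) (cast '' (W : Set (Fin n → ℚ))),
      ∃ w ∈ W, u = cast w := by
    intro u hu
    induction hu using Submodule.span_induction with
    | mem u hu =>
      obtain ⟨w, hw, rfl⟩ := hu
      exact ⟨w, hw, rfl⟩
    | zero =>
      refine ⟨0, W.zero_mem, ?_⟩
      funext i
      simp [cast]
    | add a b _ _ ha hb =>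
      obtain ⟨w, hw, rfl⟩ := ha
      obtain ⟨w', hw', rfl⟩ := hb
      exact ⟨w + w', W.add_mem hw hw', (cast_add _ _).symm⟩
    | smul c a _ ha =>
      obtain ⟨w, hw, rfl⟩ := ha
      obtain ⟨q, hq⟩ := IntermediateField.mem_bot.mp c.2
      refine ⟨q • w, W.smul_mem q hw, ?_⟩
      rw [cast_smul]
      funext i
      have : (c : ℂ) = (q : ℂ) := hq.symm
      change (c : ℂ) * cast w i = (q : ℂ) * cast w i
      rw [this]
  obtain ⟨w, hw, he⟩ := h2 _ h1
  rw [cast_inj he]
  exact hw

theorem WC_stable (W : Submodule ℚ (Fin n → ℚ)) (x : Matrix (Fin n) (Fin n) ℚ)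
    (h : ∀ w ∈ W, x.mulVec w ∈ W) : ∀ u ∈ WC W, (mC x).mulVec u ∈ WC W := by
  intro u hu
  induction hu using Submodule.span_induction with
  | mem u hu =>
    obtain ⟨w, hw, rfl⟩ := hu
    rw [← app_mC, app_cast]
    exact Submodule.subset_span ⟨_, h w hw, rfl⟩
  | zero =>
    rw [Matrix.mulVec_zero]
    exact Submodule.zero_mem _
  | add a b _ _ ha hb =>
    rw [Matrix.mulVec_add]
    exact Submodule.add_mem _ ha hb
  | smul c a _ ha =>
    rw [Matrix.mulVec_smul]
    exact Submodule.smul_mem _ c ha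

theorem WC_der (W : Submodule ℚ (Fin n → ℚ)) (δ : Derivation ℤ ℂ ℂ) :
    ∀ u ∈ WC W, (fun i => δ (u i)) ∈ WC W := by
  intro u hu
  induction hu using Submodule.span_induction with
  | mem u hu =>
    obtain ⟨w, hw, rfl⟩ := hu
    have : (fun i => δ (cast w i)) = 0 := by
      funext i
      exact Pool.Agent.W537.DB.der_rat δ (w i)
    rw [this]
    exact Submodule.zero_mem _
  | zero =>
    have : (fun i => δ ((0 : Fin n → ℂ) i)) = 0 := by
      funext i
      simp
    rw [this]
    exact Submodule.zero_mem _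
  | add a b _ _ ha hb =>
    have : (fun i => δ ((a + b) i)) = (fun i => δ (a i)) + fun i => δ (b i) := by
      funext i
      simp
    rw [this]
    exact Submodule.add_mem _ ha hb
  | smul c a ha' ha =>
    have : (fun i => δ ((c • a) i)) = (δ c) • a + c • fun i => δ (a i) := by
      funext i
      rw [Pi.smul_apply, smul_eq_mul, Derivation.leibniz, Pi.add_apply, Pi.smul_apply,
        Pi.smul_apply, smul_eq_mul, smul_eq_mul, smul_eq_mul]
      ring
    rw [this]
    exact Submodule.add_mem _ (Submodule.smul_mem _ _ ha') (Submodule.smul_mem _ _ ha)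

/-- A derivation of a matrix times vector. -/
theorem der_mulVec (δ : Derivation ℤ ℂ ℂ) (D : Matrix (Fin n) (Fin n) ℂ) (w : Fin n → ℂ) :
    (fun i => δ (D.mulVec w i)) = (D.map δ).mulVec w + D.mulVec fun i => δ (w i) := by
  funext i
  rw [Pi.add_apply, Matrix.mulVec, Matrix.mulVec, Matrix.mulVec, dotProduct, dotProduct,
    dotProduct, map_sum, ← Finset.sum_add_distrib]
  refine Finset.sum_congr rfl fun j _ => ?_
  rw [Derivation.leibniz, smul_eq_mul, smul_eq_mul, Matrix.map_apply]
  ring

/-- A rational subspace stable under the Lie algebra gives a de Rham-Betti subobject. -/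
theorem isSub (hder : S_der4) (X : Multi n N) (W : Submodule ℚ (Fin n → ℚ))
    (hW : ∀ x ∈ X.lie, ∀ w ∈ W, x.mulVec w ∈ W) : X.IsSub (WC W) := by
  have hdet : IsUnit X.D.det := isUnit_iff_ne_zero.mpr X.det
  have hst : ∀ A ∈ Submodule.span ℂ (mC '' X.lie), ∀ u ∈ WC W, A.mulVec u ∈ WC W := by
    intro A hA u hu
    induction hA using Submodule.span_induction with
    | mem A hA =>
      obtain ⟨x, hx, rfl⟩ := hA
      exact WC_stable W x (hW x hx) u hu
    | zero =>
      rw [Matrix.zero_mulVec]
      exact Submodule.zero_mem _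
    | add a b _ _ ha hb =>
      rw [Matrix.add_mulVec]
      exact Submodule.add_mem _ ha hb
    | smul c a _ ha =>
      rw [Matrix.smul_mulVec]
      exact Submodule.smul_mem _ c ha
  constructor
  · refine Submodule.span_mono ?_ |>.trans le_rfl
    rintro _ ⟨w, hw, rfl⟩
    exact ⟨Submodule.subset_span ⟨w, hw, rfl⟩, fun i => ⟨w i, rfl⟩⟩
  · let M : Submodule ℂ (Fin n → ℂ) := (WC W).map (Matrix.mulVecLin X.D⁻¹)
    have hM : ∀ w, w ∈ M ↔ X.D.mulVec w ∈ WC W := by
      intro w
      constructor
      · rintro ⟨u, hu, rfl⟩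
        rw [Matrix.mulVecLin_apply, Matrix.mulVec_mulVec, Matrix.mul_nonsing_inv _ hdet,
          Matrix.one_mulVec]
        exact hu
      · intro hw
        refine ⟨_, hw, ?_⟩
        rw [Matrix.mulVecLin_apply, Matrix.mulVec_mulVec, Matrix.nonsing_inv_mul _ hdet,
          Matrix.one_mulVec]
    have hD : Pool.Agent.W537.DB.DStable M := by
      intro δ w hw
      rw [hM] at hw ⊢
      have h1 := der_mulVec δ X.D w
      have h2 : X.D.mulVec (fun i => δ (w i)) =
          (fun i => δ (X.D.mulVec w i)) - (X.D.map δ * X.D⁻¹).mulVec (X.D.mulVec w) := by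
        rw [h1, Matrix.mulVec_mulVec, Matrix.mul_assoc, Matrix.nonsing_inv_mul _ hdet,
          Matrix.mul_one]
        abel
      rw [h2]
      exact Submodule.sub_mem _ (WC_der W δ _ hw) (hst _ ((hder n N X).1 δ) _ hw)
    have hspan := Pool.Agent.W537.DB.dstable_span _ M rfl hD
    intro u hu
    have h1 : X.D⁻¹.mulVec u ∈ M := ⟨u, hu, rfl⟩
    have h2 := hspan h1
    have h3 : ∀ w ∈ Submodule.span ℂ {w | w ∈ M ∧ ∀ i, IsAlgebraic ℚ (w i)},
        X.D.mulVec w ∈ Submodule.span ℂ {u | u ∈ WC W ∧ ∀ i, IsAlgebraic ℚ ((X.D⁻¹.mulVec u) i)} := by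
      intro w hw
      induction hw using Submodule.span_induction with
      | mem w hw =>
        apply Submodule.subset_span
        refine ⟨(hM w).mp hw.1, ?_⟩
        rw [Matrix.mulVec_mulVec, Matrix.nonsing_inv_mul _ hdet, Matrix.one_mulVec]
        exact hw.2
      | zero =>
        rw [Matrix.mulVec_zero]
        exact Submodule.zero_mem _
      | add a b _ _ ha hb =>
        rw [Matrix.mulVec_add]
        exact Submodule.add_mem _ ha hb
      | smul c a _ ha =>
        rw [Matrix.mulVec_smul]
        exact Submodule.smul_mem _ c ha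
    have h4 := h3 _ h2
    rw [Matrix.mulVec_mulVec, Matrix.mul_nonsing_inv _ hdet, Matrix.one_mulVec] at h4
    exact h4

theorem ss4 : S_der4 → S_end4 → S_ss4 := by
  intro hder hend n N X hEH hHD hSS f hf
  obtain ⟨-, -, hcommE⟩ := hend n N X hEH hHD
  let Φ := Matrix.toLinAlgEquiv' (R := ℚ) (n := Fin n)
  have hΦ : ∀ (x : Matrix (Fin n) (Fin n) ℚ) (v : Fin n → ℚ), Φ x v = x.mulVec v := fun x v => rfl
  let A : Subalgebra ℚ (Module.End ℚ (Fin n → ℚ)) :=
    (Algebra.adjoin ℚ X.lie).map (Φ : Matrix (Fin n) (Fin n) ℚ →ₐ[ℚ] Module.End ℚ (Fin n → ℚ))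
  have hAlie : ∀ x ∈ X.lie, (Φ x) ∈ A := fun x hx =>
    ⟨x, Algebra.subset_adjoin hx, rfl⟩
  -- commuting with the algebra
  have hcommA : ∀ P : Matrix (Fin n) (Fin n) ℚ, (∀ x ∈ X.lie, P * x = x * P) → ∀ a ∈ A,
      ∀ v, P.mulVec (a v) = a (P.mulVec v) := by
    rintro P hP _ ⟨y, hy, rfl⟩ v
    have h1 : P * y = y * P := by
      induction hy using Algebra.adjoin_induction with
      | mem x hx => exact hP x hx
      | algebraMap q => exact (Algebra.commutes q P).symm
      | add a b _ _ ha hb => rw [mul_add, add_mul, ha, hb]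
      | mul a b _ _ ha hb => rw [← mul_assoc, ha, mul_assoc, hb, mul_assoc]
    change P.mulVec (y.mulVec v) = y.mulVec (P.mulVec v)
    rw [Matrix.mulVec_mulVec, Matrix.mulVec_mulVec, h1]
  have hss : IsSemisimpleModule A (Fin n → ℚ) := by
    refine { exists_isCompl := fun W => ?_ }
    let W0 : Submodule ℚ (Fin n → ℚ) := W.restrictScalars ℚ
    have hW0 : ∀ x ∈ X.lie, ∀ w ∈ W0, x.mulVec w ∈ W0 := by
      intro x hx w hw
      exact W.smul_mem (⟨Φ x, hAlie x hx⟩ : A) hw
    obtain ⟨p, hp1, hp2, hp3⟩ := hSS (WC W0) (isSub hder X W0 hW0)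
    have hpH := hEH p hp1
    have hpc := hcommA p (hcommE p hpH)
    have hfix : ∀ w ∈ W0, p.mulVec w = w := by
      intro w hw
      apply cast_inj
      rw [← app_cast]
      exact hp2 _ (Submodule.subset_span ⟨w, hw, rfl⟩)
    have hin : ∀ v, p.mulVec v ∈ W0 := by
      intro v
      apply mem_of_cast W0
      rw [← app_cast]
      exact hp3 _
    let W' : Submodule A (Fin n → ℚ) :=
      { carrier := {v | p.mulVec v = 0}
        zero_mem' := Matrix.mulVec_zero p
        add_mem' := by
          intro a b ha hb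
          change p.mulVec (a + b) = 0
          rw [Matrix.mulVec_add, ha, hb, add_zero]
        smul_mem' := by
          intro c v hv
          change p.mulVec (c.1 v) = 0
          rw [hpc c.1 c.2 v]
          have hv' : p.mulVec v = 0 := hv
          rw [hv', map_zero] }
    refine ⟨W', ?_⟩
    constructor
    · rw [Submodule.disjoint_def]
      intro v hv hv'
      have h1 : p.mulVec v = 0 := hv'
      rw [← hfix v hv, h1]
    · rw [codisjoint_iff, eq_top_iff]
      intro v _
      rw [Submodule.mem_sup]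
      refine ⟨p.mulVec v, hin v, v - p.mulVec v, ?_, by abel⟩
      change p.mulVec (v - p.mulVec v) = 0
      rw [Matrix.mulVec_sub, hfix _ (hin v), sub_self]
  -- density
  let F : Module.End (Module.End A (Fin n → ℚ)) (Fin n → ℚ) :=
    { toFun := fun v => f.mulVec v
      map_add' := fun v w => Matrix.mulVec_add f v w
      map_smul' := by
        intro φ v
        change f.mulVec (φ v) = φ (f.mulVec v)
        -- the matrix of φ
        have hsm : ∀ (q : ℚ) (v : Fin n → ℚ), φ (q • v) = q • φ v := by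
          intro q v
          exact φ.map_smul (algebraMap ℚ A q) v
        let φ0 : (Fin n → ℚ) →ₗ[ℚ] (Fin n → ℚ) :=
          { toFun := φ, map_add' := φ.map_add, map_smul' := hsm }
        let P : Matrix (Fin n) (Fin n) ℚ := Φ.symm φ0
        have hP : ∀ v, P.mulVec v = φ v := by
          intro v
          rw [← hΦ]
          change (Φ (Φ.symm φ0)) v = φ v
          rw [AlgEquiv.apply_symm_apply]
          rfl
        have hPc : ∀ x ∈ X.lie, P * x = x * P := by
          intro x hx
          apply Φ.injective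
          apply LinearMap.ext
          intro v
          rw [hΦ, hΦ, ← Matrix.mulVec_mulVec, ← Matrix.mulVec_mulVec, hP, hP]
          exact φ.map_smul (⟨Φ x, hAlie x hx⟩ : A) v
        have hPH := hEH P ((hder n N X).2 P hPc)
        have h1 := hf P hPH
        rw [← hP, ← hP, Matrix.mulVec_mulVec, Matrix.mulVec_mulVec, h1] }
  obtain ⟨a, ha⟩ := jacobson_density (R := A) (M := Fin n → ℚ) F (univ.image fun i : Fin n => Pi.single i (1 : ℚ))
  have h1 : Φ f = a.1 := by
    apply LinearMap.pi_ext'
    intro i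
    apply LinearMap.ext_ring
    have := ha (Pi.single i (1 : ℚ)) (Finset.mem_image_of_mem _ (Finset.mem_univ i))
    exact this
  obtain ⟨y, hy, hy'⟩ := a.2
  have h2 : f = y := Φ.injective (h1.trans hy'.symm)
  rw [h2]
  exact hy

end

end Pool.Agent.W308.K3.SS4
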